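import Mathlib
import Pool.Agent.H94R3.SigmaNeg

set_option autoImplicit false

namespace Pool.Agent.Y241.SG

open Set Topology Cardinal Pool.Agent.H94R3.Sigma

universe u

/-- The points of the Cantor cube with countably many nonzero coordinates, as a subgroup. -/
def sub (I : Type u) : AddSubgroup (I → Bool) where
  carrier := {x | {i | x i ≠ false}.Countable}
  zero_mem' := by
    have h : {i : I | (0 : I → Bool) i ≠ false} = ∅ := by
      ext i
      simp only [Pi.zero_apply, mem_ofPred_eq, mem_empty_iff_false, iff_false, not_not]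
      rfl
    rw [mem_ofPred_eq, h]
    exact countable_empty
  add_mem' := by
    intro x y hx hy
    refine (hx.union hy).mono ?_
    intro i hi
    by_contra hcon
    simp only [mem_union, mem_ofPred_eq, not_or, not_not] at hcon
    apply hi
    rw [Pi.add_apply, hcon.1, hcon.2]
    rfl
  neg_mem' := by
    intro x hx
    refine hx.mono ?_
    intro i hi h
    apply hi
    rw [Pi.neg_apply, h]
    rfl

/-- The group structure of the sigma-product. -/
noncomputable instance grp (I : Type u) : AddCommGroup (SigmaCantor I) :=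
  inferInstanceAs (AddCommGroup (sub I))

theorem topGrp (I : Type u) : IsTopologicalAddGroup (SigmaCantor I) :=
  inferInstanceAs (IsTopologicalAddGroup (sub I))

theorem add_self' {I : Type u} (x : SigmaCantor I) : x + x = 0 := by
  apply Subtype.ext
  funext i
  change x.1 i + x.1 i = 0
  rcases x.1 i with _ | _ <;> rfl

theorem omega_bounded {I : Type u} (A : Set (SigmaCantor I)) (hA : A.Countable) :
    IsCompact (closure A) := by
  set S : Set I := ⋃ x ∈ A, {i | x.1 i ≠ false} with hS
  have hSc : S.Countable := hA.biUnion fun x _ => x.2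
  set K' : Set (I → Bool) := {x | ∀ i, i ∉ S → x i = false} with hK'
  have hK'c : IsClosed K' := by
    have : K' = ⋂ i ∈ Sᶜ, {x : I → Bool | x i = false} := by
      ext x
      simp [hK']
    rw [this]
    refine isClosed_biInter fun i _ => ?_
    exact isClosed_eq (continuous_apply i) continuous_const
  set K : Set (SigmaCantor I) := Subtype.val ⁻¹' K' with hK
  have hKc : IsClosed K := hK'c.preimage continuous_subtype_val
  have himg : Subtype.val '' K = K' := by
    ext x
    constructor
    · rintro ⟨y, hy, rfl⟩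
      exact hy
    · intro hx
      refine ⟨⟨x, hSc.mono ?_⟩, hx, rfl⟩
      intro i hi
      by_contra hn
      exact hi (hx i hn)
  have hKcomp : IsCompact K := by
    rw [Subtype.isCompact_iff, himg]
    exact hK'c.isCompact
  refine hKcomp.of_isClosed_subset isClosed_closure (closure_minimal ?_ hKc)
  intro x hx i hi
  by_contra hn
  exact hi (mem_biUnion hx hn)

theorem weakly_dense_sub {X : Type u} [TopologicalSpace X] {D : Set X} (hD : Dense D)
    (h : WeaklyDSeparable D) :
    ∃ F : ℕ → Set X, (∀ n, F n ⊆ D ∧ IsDiscrete (F n)) ∧ Dense (⋃ n, F n) := by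
  obtain ⟨E, hE, hEd⟩ := h
  refine ⟨fun n => Subtype.val '' E n, ?_, ?_⟩
  · intro n
    refine ⟨?_, ?_⟩
    · rintro _ ⟨x, _, rfl⟩
      exact x.2
    · rw [isDiscrete_iff_forall_mem_exists_isOpen]
      rintro _ ⟨x, hx, rfl⟩
      obtain ⟨U, hU, hUx⟩ := (isDiscrete_iff_forall_mem_exists_isOpen.1 (hE n)) x hx
      obtain ⟨V, hV, rfl⟩ := isOpen_induced_iff.1 hU
      refine ⟨V, hV, ?_⟩
      ext y
      simp only [mem_inter_iff, mem_image, mem_singleton_iff]
      constructor
      · rintro ⟨hyV, z, hz, rfl⟩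
        have : z ∈ (Subtype.val ⁻¹' V) ∩ E n := ⟨hyV, hz⟩
        rw [hUx, mem_singleton_iff] at this
        rw [this]
      · rintro rfl
        have : x ∈ (Subtype.val ⁻¹' V) ∩ E n := by rw [hUx]; exact mem_singleton x
        exact ⟨this.1, x, hx, rfl⟩
  · rw [← image_iUnion]
    exact hD.denseRange_val.dense_image continuous_subtype_val hEd

theorem density {I : Type u} (hI : ℵ₀ < #I) (A : Set (SigmaCantor I)) (hA : Dense A) :
    #I ≤ #A := by
  by_contra hcon
  push Not at hcon
  set S : Set I := ⋃ x : A, {i | x.1.1 i ≠ false} with hS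
  have h1 : #S < #I := by
    have h2 : #S ≤ #A * ⨆ x : A, #{i | x.1.1 i ≠ false} := Cardinal.mk_iUnion_le _
    have h3 : (⨆ x : A, #{i | x.1.1 i ≠ false}) ≤ ℵ₀ :=
      ciSup_le' fun x => (Set.Countable.le_aleph0 x.1.2)
    refine lt_of_le_of_lt (h2.trans (mul_le_mul' le_rfl h3)) ?_
    exact Cardinal.mul_lt_of_lt hI.le hcon hI
  obtain ⟨i, hi⟩ : ∃ i, i ∉ S := by
    by_contra hall
    push Not at hall
    have : S = Set.univ := eq_univ_of_forall hall
    rw [this, Cardinal.mk_univ] at h1
    exact lt_irrefl _ h1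
  obtain ⟨x, hx, hxA⟩ := dense_iff.1 hA ({i}, ∅) (by intro k _; simp)
  have h4 : x.1 i = true := hx.1 i (by simp)
  apply hi
  rw [hS, mem_iUnion]
  exact ⟨⟨x, hxA⟩, by rw [mem_ofPred_eq, h4]; simp⟩

theorem main (lam : Cardinal.{u}) : ∃ (X : Type u) (_ : AddCommGroup X) (_ : TopologicalSpace X),
    IsTopologicalAddGroup X ∧ (∀ x : X, x + x = 0) ∧ T35Space X ∧ FrechetUrysohnSpace X ∧
    (∀ A : Set X, A.Countable → IsCompact (closure A)) ∧
    (∀ A : Set X, Dense A → lam ≤ #A) ∧
    WeaklyDSeparable X ∧ (∃ D : Set X, Dense D ∧ ¬ WeaklyDSeparable D) ∧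
    ¬ SelectivelyDSeparable X := by
  set mu : Cardinal.{u} := (max lam 2) ^ ℵ₀ with hmu
  have hpow : mu ^ ℵ₀ = mu := by
    rw [hmu, ← Cardinal.power_mul, Cardinal.aleph0_mul_aleph0]
  have h2 : (2 : Cardinal.{u}) ≤ max lam 2 := le_max_right _ _
  have hgt : ℵ₀ < mu := by
    refine lt_of_lt_of_le (Cardinal.cantor ℵ₀) ?_
    exact Cardinal.power_le_power_right h2
  have hlam : lam ≤ mu := by
    refine (le_max_left lam 2).trans ?_
    conv_lhs => rw [← Cardinal.power_one (max lam 2)]
    exact Cardinal.power_le_power_left (by positivity) Cardinal.one_le_aleph0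
  obtain ⟨I, hI⟩ : ∃ I : Type u, #I = mu := ⟨mu.out, Cardinal.mk_out mu⟩
  have hIinf : Infinite I := by
    rw [Cardinal.infinite_iff, hI]
    exact hgt.le
  have hIp : #I ^ ℵ₀ = #I := by rw [hI]; exact hpow
  obtain ⟨D, hD, hF⟩ := exists_dense hIp
  refine ⟨SigmaCantor I, grp I, inferInstance, topGrp I, add_self', inferInstance, frechet,
    omega_bounded, ?_, weaklyDSeparable, ⟨D, hD, ?_⟩, not_selectivelyDSeparable hIp⟩
  · intro A hA
    refine hlam.trans ?_
    rw [← hI]
    exact density (by rw [hI]; exact hgt) A hA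
  · intro h
    obtain ⟨F, h1, h3⟩ := weakly_dense_sub hD h
    exact hF F h1 h3

end Pool.Agent.Y241.SG
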